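import Mathlib
import Pool.Agent.Y818.FV.Fin

/-!
# Selberg's eigenvalue conjecture for Maass forms with few Hecke eigenvalues

Let `f` be a Maass newform of weight zero, of any level and with any nebentypus, with Laplace eigenvalue
`lam = 1/4 - ν²`; let `S` be a finite set of primes which contains the divisors of the level, `a_p`, `b_p` (`p ∉ S`) the
Satake parameters and `λ(p) = a_p + b_p` the Hecke eigenvalues. (Every Laplace eigenvalue `≠ 0` of a cusp form for a
congruence subgroup is the eigenvalue of such a newform; the residual and continuous spectrum gives no eigenvalue in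
`(0, 1/4)`.)

* (1) If `|λ(p)|²` takes at most four different values outside a finite set of primes, then `lam ≥ 1/4`: Selberg's
  conjecture is true for `f`.
* (2) More generally `lam ≥ 1/4` if `∑_p |P(|λ(p)|²)| log p / √p` converges for one real polynomial `P ≠ 0` of degree at
  most four. In other words, for an exceptional `f` and every such `P` this series diverges; in particular
  `|P(|λ(p)|²)| ≥ p^{-1/2-ε}` for infinitely many `p`.
* (3) Let `f` not be of dihedral, tetrahedral or octahedral type, with any Laplace eigenvalue. Then `|λ(p)|²` takes at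
  least four different values outside every finite set of primes (so a Maass newform for which `|λ(p)|²` takes at most
  three values is of one of these types). If the series converges for one `P ≠ 0` of degree at most four (for instance
  if `|λ(p)|²` takes exactly four values), then `lam = 1/4`; `f` is tempered at all `p ∉ S`, and `a_p / b_p` is a root
  of unity of order at most seven; `P(|λ(p)|²) = 0` for all `p ∉ S`; the primes with `|λ(p)|² = 4` have density zero, but
  the sum of `log p / √p` over these primes diverges; and one of the following two holds: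
  - `|λ(p)|² ∈ {0, 1, 3, 4}` for all `p ∉ S`, the values `0, 1, 3` with densities `1/3, 1/2, 1/6`, and `P` is a multiple of
    `y (y - 1) (y - 3) (y - 4)`; or
  - `|λ(p)|²` is `4` or a root `v = 4 cos²(π k / 7)`, `k = 1, 2, 3`, of `y³ - 5y² + 6y - 1` for all `p ∉ S`, the value `v`
    with density `(4 - v) / 7`, and `P` is a multiple of `(y - 4) (y³ - 5y² + 6y - 1)`.
  So a form which is not polyhedral and has `lam ≠ 1/4` takes at least five values of `|λ(p)|²`, and the series diverges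
  for all `f` which are not polyhedral if `P` is not a multiple of one of the two polynomials.

Known before: integral `λ(p)` (Sarnak 2002), quadratic integers (Brumley 2003), integral `|λ(p)|²` and number field
versions (`IntegralSquares` and others of this problem). The moments of `|λ(p)|²` up to the fourth one exclude only
two values; they are compatible with three values, and the positivity arguments used for integral values do not apply.

The proof: `y = |λ(p)|²`, `|tr Sym^j|² = T_j(y)` with `T_0, ..., T_4 = 1, y, (y-1)², y(y-2)², (y²-3y+1)²`. Write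
`P = ∑ c_j T_j`. Then `∑_j c_j log L(s, Sym^j × Sym^j~)` has no singularity off the real axis in `Re s ≥ 1/2`: on the
line `Re s = 1/2` one reduces the terms with `p²` modulo `P` and uses that the `L`-functions do not vanish on
`Re s = 1`. So the zeros of the product of the `L(s, Sym^j × Sym^j~)^{c_j}` (with real exponents!) cancel; by the
functional equations and Hadamard factorisation the Gamma factors cancel up to a rational function; so they cancel, which
needs `ν = 0`; and the whole Dirichlet series vanishes, which gives the roots of unity. The densities come from the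
simple poles at `s = 1`.

`MaassNewform`, `Cuspidal` and `SymLift` list what is used of `f`; all of it is known: `π_p` is unitary; if `f` is not of
dihedral, tetrahedral or octahedral type (in particular if `lam < 1/4`) then `Sym^j(π)`, `j ≤ 4`, is cuspidal
(Gelbart-Jacquet, Kim-Shahidi, Kim); bounds of Jacquet-Shalika for `Sym^j(π)`; `L(s, Sym^j(π) × Sym^j(π)~)` is entire
except for a simple pole at `s = 1`, of polynomial growth in vertical strips, with its functional equation, with Gamma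
factors `Γ_ℝ(s + 2ν(i - l))`, `0 ≤ i, l ≤ j`.

Parts of the proof: helpers 664 (Hadamard factorisation with real exponents), 847 (Gamma factors, uniqueness, zeros on
the line `Re s = 1`), 67 (orders), 970 (growth), 529 (logarithmic derivatives), 48 (cancellation of zeros), 614
(symmetric powers), 924, 461, 165 (convergence), 454 (exceptional primes), 448 (zeta function), 488 (exceptional
primes, classification), 77 (roots of unity), 246 (densities), 818 (statements, assembly).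
-/

set_option autoImplicit false

namespace Pool.Agent.Results.MP_a812b2_nt.FewValues

open Filter Topology Polynomial

/-- the primes outside the finite set `S` -/
abbrev Unram (S : Finset Nat.Primes) := {p : Nat.Primes // p ∉ S}

/-- `π_p` with the Satake parameters `a, b` is unitary: complex conjugation induces `{a, b} → {1/a, 1/b}` -/
def Unitary (a b : ℂ) : Prop := a ≠ 0 ∧ b ≠ 0 ∧
  (((starRingEnd ℂ) a = a⁻¹ ∧ (starRingEnd ℂ) b = b⁻¹) ∨ ((starRingEnd ℂ) a = b⁻¹ ∧ (starRingEnd ℂ) b = a⁻¹))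

/-- the Satake parameters of `Sym^j(π)` if `π` has the Satake parameters `a, b` -/
noncomputable def par (a b : ℂ) (j : ℕ) (i : Fin (j + 1)) : ℂ := a ^ (j - (i : ℕ)) * b ^ (i : ℕ)

/-- `log L^S(s, Sym^j × Sym^j~) = ∑_{p ∉ S} ∑_{k ≥ 1} |tr Sym^j_p^k|² / (k p^{ks})` -/
noncomputable def logL (S : Finset Nat.Primes) (a b : Nat.Primes → ℂ) (j : ℕ) (s : ℂ) : ℂ :=
  ∑' x : Unram S × ℕ, ((‖∑ i, par (a x.1.1) (b x.1.1) j i ^ (x.2 + 1)‖ ^ 2 / ((x.2 : ℝ) + 1) : ℝ) : ℂ) *
    (((x.1.1 : ℕ) : ℂ) ^ (-s)) ^ (x.2 + 1)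

/-- The properties of the Rankin-Selberg `L`-function `L(s, Sym^j × Sym^j~)` of the cuspidal representation `Sym^j(π)`
of `GL_{j+1}` over `ℚ` which are used. -/
structure SymLift (S : Finset Nat.Primes) (a b : Nat.Primes → ℂ) (ν : ℂ) (j : ℕ) : Prop where
  /-- absolute convergence for `Re s > 1` -/
  summable : ∀ σ : ℝ, 1 < σ → Summable fun x : Unram S × ℕ =>
    ‖∑ i, par (a x.1.1) (b x.1.1) j i ^ (x.2 + 1)‖ ^ 2 / ((x.2 : ℝ) + 1) * (((x.1.1 : ℕ) : ℝ) ^ (-σ)) ^ (x.2 + 1)
  /-- the bound of Jacquet and Shalika for `Sym^j(π)` -/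
  bound : ∀ p ∉ S, ∀ i : Fin (j + 1), ‖par (a p) (b p) j i‖ < ((p : ℕ) : ℝ) ^ (1 / 2 : ℝ)
  /-- `L(s, Sym^j × Sym^j~) = G(s) / (s - 1)` with `G` entire of polynomial growth in vertical strips and `G(1) ≠ 0`;
  the reciprocal roots `β p i` of the Euler factors at the primes `p ∈ S` are smaller than `p`; and
  `Ξ(s) = s (s - 1) Q^s ∏ Γ_ℝ(s + 2ν(i - l)) L(s, Sym^j × Sym^j~)` is entire and satisfies the functional equation -/
  continuation : ∃ (β : Nat.Primes → Fin (j + 1) × Fin (j + 1) → ℂ) (G Ξ : ℂ → ℂ) (Q : ℝ) (ω : ℂ),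
    (∀ p ∈ S, ∀ i, ‖β p i‖ < ((p : ℕ) : ℝ)) ∧ Differentiable ℂ G ∧ Differentiable ℂ Ξ ∧ 0 < Q ∧ ω ≠ 0 ∧ G 1 ≠ 0 ∧
    (∀ s : ℂ, 1 < s.re → G s * ∏ p ∈ S, ∏ i, (1 - β p i * ((p : ℕ) : ℂ) ^ (-s)) =
      (s - 1) * Complex.exp (logL S a b j s)) ∧
    (∀ u v : ℝ, ∃ C A : ℝ, ∀ s : ℂ, u ≤ s.re → s.re ≤ v → ‖G s‖ ≤ C * (1 + |s.im|) ^ A) ∧
    (∀ s : ℂ, 1 < s.re → Ξ s = s * G s * ((Q : ℂ) ^ s *
      ∏ i : Fin (j + 1) × Fin (j + 1), Complex.Gammaℝ (s + 2 * ν * (((i.1 : ℕ) : ℂ) - ((i.2 : ℕ) : ℂ))))) ∧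
    ∀ s : ℂ, Ξ (1 - s) = ω * Ξ s

/-- The form `f` with Laplace eigenvalue `lam = 1/4 - ν²` is not of dihedral, tetrahedral or octahedral type, so that
`Sym^j(π)`, `1 ≤ j ≤ 4`, is cuspidal; `|Re 4ν| < 1/2` is the bound of Jacquet and Shalika at the real place. -/
def Cuspidal (S : Finset Nat.Primes) (a b : Nat.Primes → ℂ) (lam : ℝ) : Prop :=
  ∃ ν : ℂ, ν ^ 2 = 1 / 4 - (lam : ℂ) ∧ |(4 * ν).re| < 1 / 2 ∧ ∀ j : ℕ, 1 ≤ j → j ≤ 4 → SymLift S a b ν j

/-- What is used of a Maass newform `f` of weight zero with Laplace eigenvalue `lam` and Satake parameters `a p`, `b p`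
at the primes outside `S`. -/
structure MaassNewform (S : Finset Nat.Primes) (a b : Nat.Primes → ℂ) (lam : ℝ) : Prop where
  /-- `π_p` is unitary -/
  unitary : ∀ p ∉ S, Unitary (a p) (b p)
  /-- an exceptional form is not of dihedral, tetrahedral or octahedral type -/
  exceptional : lam < 1 / 4 → Cuspidal S a b lam

/-- `|λ(p)|²` -/
noncomputable def sq (a b : Nat.Primes → ℂ) (p : Nat.Primes) : ℝ := ‖a p + b p‖ ^ 2

/-- the set `A` of primes has Dirichlet density `δ`: `(s - 1) ∑_{p ∈ A} log p / p^s → δ` as `s → 1+` -/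
def HasDensity (A : Set Nat.Primes) (δ : ℝ) : Prop :=
  Tendsto (fun s : ℝ => (s - 1) * ∑' p : Nat.Primes, Set.indicator A
    (fun p => Real.log ((p : ℕ) : ℝ) * ((p : ℕ) : ℝ) ^ (-s)) p) (𝓝[>] 1) (𝓝 δ)

/-- the first exotic pattern -/
def PatternSix (S : Finset Nat.Primes) (a b : Nat.Primes → ℂ) : Prop :=
  (∀ p ∉ S, sq a b p = 0 ∨ sq a b p = 1 ∨ sq a b p = 3 ∨ sq a b p = 4) ∧
  HasDensity {p | p ∉ S ∧ sq a b p = 0} (1 / 3) ∧ HasDensity {p | p ∉ S ∧ sq a b p = 1} (1 / 2) ∧
  HasDensity {p | p ∉ S ∧ sq a b p = 3} (1 / 6)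

/-- the second exotic pattern; the roots of `v³ - 5v² + 6v - 1` are `4 cos²(π k / 7)`, `k = 1, 2, 3` -/
def PatternSeven (S : Finset Nat.Primes) (a b : Nat.Primes → ℂ) : Prop :=
  (∀ p ∉ S, sq a b p = 4 ∨ sq a b p ^ 3 - 5 * sq a b p ^ 2 + 6 * sq a b p - 1 = 0) ∧
  ∀ v : ℝ, v ^ 3 - 5 * v ^ 2 + 6 * v - 1 = 0 → HasDensity {p | p ∉ S ∧ sq a b p = v} ((4 - v) / 7)

open Pool.Agent.Y818.FV in
theorem toLD {S : Finset Nat.Primes} {a b : Nat.Primes → ℂ} {ν : ℂ} {j : ℕ} (hν : ν.im = 0 ∨ ν.re = 0)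
    (h4 : |(4 * ν).re| < 1 / 2) (hj : j ≤ 4) (h : SymLift S a b ν j) :
    ∃ (β : Nat.Primes → Fin (j + 1) × Fin (j + 1) → ℂ) (G Ξ : ℂ → ℂ) (Q : ℝ) (ω : ℂ),
      LD (dj S a b j) β (kj ν j) G Ξ Q ω := by
  obtain ⟨β, G, Ξ, Q, ω, hβ, hG, hΞ, hQ, hω, hG1, hE, hgr, hid, hfe⟩ := h.continuation
  have hre : ∀ i : Fin (j + 1) × Fin (j + 1), |(kj ν j i).re| < 1 := by
    intro i
    have e : (kj ν j i).re = 2 * ν.re * (((i.1 : ℕ) : ℝ) - (i.2 : ℕ)) := by
      unfold kj
      simp
    have e4 : (4 * ν).re = 4 * ν.re := by simp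
    rw [e4, abs_mul] at h4
    rw [e, abs_mul, abs_mul]
    have b1 : ((i.1 : ℕ) : ℝ) ≤ 4 := by
      have := i.1.2
      exact_mod_cast (by omega : (i.1 : ℕ) ≤ 4)
    have b2 : ((i.2 : ℕ) : ℝ) ≤ 4 := by
      have := i.2.2
      exact_mod_cast (by omega : (i.2 : ℕ) ≤ 4)
    have p1 : (0 : ℝ) ≤ ((i.1 : ℕ) : ℝ) := Nat.cast_nonneg _
    have p2 : (0 : ℝ) ≤ ((i.2 : ℕ) : ℝ) := Nat.cast_nonneg _
    have h5 : |((i.1 : ℕ) : ℝ) - (i.2 : ℕ)| ≤ 4 := by
      rw [abs_le]
      constructor <;> linarith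
    have h6 : |(4 : ℝ)| = 4 := by norm_num
    have h7 : |(2 : ℝ)| = 2 := by norm_num
    rw [h6] at h4
    rw [h7]
    have h8 : 0 ≤ |ν.re| := abs_nonneg _
    calc 2 * |ν.re| * |((i.1 : ℕ) : ℝ) - (i.2 : ℕ)| ≤ 2 * |ν.re| * 4 := by gcongr
      _ < 1 := by linarith
  refine ⟨β, G, Ξ, Q, ω, fun x => by unfold dj; positivity, fun σ hσ => ?_, hβ, hG, hΞ, hQ, hω, hG1, fun s hs => ?_, hgr,
    fun s hs => hid s hs, hfe, fun i => ?_, fun i => ?_⟩
  · refine (h.summable σ hσ).congr fun x => ?_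
    rw [Pool.Agent.W189.TP.rexp_LL, abs_of_nonneg (by unfold dj; positivity)]
    rfl
  · refine (hE s hs).trans ?_
    congr 2
    unfold logL Pool.Agent.W189.TP.DS
    refine tsum_congr fun x => ?_
    rw [Pool.Agent.W189.TP.exp_LL]
    rfl
  · have := hre i
    rw [abs_lt] at this
    exact this.1
  · rcases hν with h1 | h1
    · left
      unfold kj
      simp [h1]
    · right
      unfold kj
      simp [h1]

open Pool.Agent.Y818.FV in
theorem key {S : Finset Nat.Primes} {a b : Nat.Primes → ℂ} {lam : ℝ} (hU : ∀ p ∉ S, Unitary (a p) (b p))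
    (h : Cuspidal S a b lam) {P : ℝ[X]} (h0 : P ≠ 0) (hd : P.natDegree ≤ 4)
    (hs : Summable fun p : Unram S => |P.eval (sq a b p.1)| * Real.log ((p.1 : ℕ) : ℝ) / √((p.1 : ℕ) : ℝ)) :
    lam = 1 / 4 ∧ (∀ p ∉ S, ‖a p‖ = 1 ∧ ‖b p‖ = 1 ∧ ∃ n : ℕ, 1 ≤ n ∧ n ≤ 7 ∧ (a p / b p) ^ n = 1) ∧
    (∀ p ∉ S, P.eval (sq a b p) = 0) ∧
    ((PatternSix S a b ∧ ∃ c : ℝ, ∀ y : ℝ, P.eval y = c * (y * (y - 1) * (y - 3) * (y - 4))) ∨
     (PatternSeven S a b ∧ ∃ c : ℝ, ∀ y : ℝ, P.eval y = c * ((y - 4) * (y ^ 3 - 5 * y ^ 2 + 6 * y - 1)))) := by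
  obtain ⟨ν, hν2, hν4, hlift⟩ := h
  obtain ⟨c, hc, hcP⟩ := poly_pp P h0 hd
  have hν : ν.im = 0 ∨ ν.re = 0 := by
    have h1 := congrArg Complex.im hν2
    have e1 : (ν ^ 2).im = 2 * (ν.re * ν.im) := by
      rw [pow_two, Complex.mul_im]
      ring
    have e2 : (1 / 4 - (lam : ℂ)).im = 0 := by
      have : (1 / 4 - (lam : ℂ)) = ((1 / 4 - lam : ℝ) : ℂ) := by push_cast; ring
      rw [this, Complex.ofReal_im]
    rw [e1, e2] at h1
    have h2 : ν.re * ν.im = 0 := by linarith
    rcases mul_eq_zero.1 h2 with h3 | h3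
    · exact Or.inr h3
    · exact Or.inl h3
  have hν8 : |ν.re| < 1 / 8 := by
    have e4 : (4 * ν).re = 4 * ν.re := by simp
    rw [e4, abs_mul] at hν4
    have h6 : |(4 : ℝ)| = 4 := by norm_num
    rw [h6] at hν4
    linarith
  have hb : ∀ j : Fin 5, ∀ p ∉ S, ∀ i : Fin ((j : ℕ) + 1), ‖Pool.Agent.Y818.FV.par (a p) (b p) j i‖ <
      ((p : ℕ) : ℝ) ^ (1 / 2 : ℝ) := by
    intro j p hp i
    by_cases hj : (j : ℕ) = 0
    · have h1 : Pool.Agent.Y818.FV.par (a p) (b p) j i = 1 := by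
        unfold Pool.Agent.Y818.FV.par
        have h2 : (i : ℕ) = 0 := by
          have := i.2
          omega
        rw [h2, hj]
        simp
      rw [h1, norm_one]
      exact Real.one_lt_rpow (by exact_mod_cast p.2.one_lt) (by norm_num)
    · exact (hlift j (by omega) (by have := j.2; omega)).bound p hp i
  have hL : ∀ j : Fin 5, ∃ (β : Nat.Primes → Fin ((j : ℕ) + 1) × Fin ((j : ℕ) + 1) → ℂ) (G Ξ : ℂ → ℂ) (Q : ℝ) (ω : ℂ),
      LD (dj S a b j) β (kj ν j) G Ξ Q ω := by
    intro j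
    by_cases hj : j = 0
    · subst hj
      obtain ⟨G, Ξ, hGΞ⟩ := zeta S a b ν
      exact ⟨_, G, Ξ, 1, 1, hGΞ⟩
    · have hj1 : 1 ≤ (j : ℕ) := by
        have : (j : ℕ) ≠ 0 := fun h => hj (Fin.ext h)
        omega
      exact toLD hν hν4 (by have := j.2; omega) (hlift j hj1 (by have := j.2; omega))
  choose β G Ξ Q ω hLD using hL
  have hs' : Summable fun p : Pool.Agent.W189.TP.PS S => |PP c (YY S a b p 0)| * Real.log ((p.1 : ℕ) : ℝ) /
      √((p.1 : ℕ) : ℝ) := by
    refine hs.congr fun p => ?_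
    rw [YY_zero, hcP]
    rfl
  obtain ⟨r0, r1, r2, r3⟩ := main3 jobs hU hν hν8 hb hLD c hc hs'
  refine ⟨?_, r1, fun p hp => ?_, ?_⟩
  · rw [r0] at hν2
    have h1 : ((1 / 4 - lam : ℝ) : ℂ) = 0 := by
      push_cast
      rw [← hν2]
      simp
    have h2 : 1 / 4 - lam = 0 := by exact_mod_cast h1
    linarith
  · rw [← hcP]
    exact r2 p hp
  · rcases r3 with ⟨s1, ⟨d, s2⟩, s3, s4, s5⟩ | ⟨s1, ⟨d, s2⟩, s3⟩
    · exact Or.inl ⟨⟨s1, s3, s4, s5⟩, d, fun y => by rw [← hcP]; exact s2 y⟩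
    · refine Or.inr ⟨⟨fun p hp => ?_, s3⟩, d, fun y => by rw [← hcP]; exact s2 y⟩
      rcases mul_eq_zero.1 (s1 p hp) with h1 | h1
      · exact Or.inl (sub_eq_zero.1 h1)
      · exact Or.inr h1

/-- a polynomial with the root `5` is not a multiple of the two exotic ones -/
theorem not_exotic {P : ℝ[X]} (h0 : P ≠ 0) (h5 : P.eval 5 = 0)
    (h : (∃ c : ℝ, ∀ y : ℝ, P.eval y = c * (y * (y - 1) * (y - 3) * (y - 4))) ∨
      ∃ c : ℝ, ∀ y : ℝ, P.eval y = c * ((y - 4) * (y ^ 3 - 5 * y ^ 2 + 6 * y - 1))) : False := by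
  have hz : ∀ y : ℝ, P.eval y = 0 := by
    rcases h with ⟨c, hc⟩ | ⟨c, hc⟩
    · have h1 := hc 5
      rw [h5] at h1
      have h2 : c = 0 := by
        norm_num at h1
        exact h1
      intro y
      rw [hc, h2, zero_mul]
    · have h1 := hc 5
      rw [h5] at h1
      have h2 : c = 0 := by
        norm_num at h1
        exact h1
      intro y
      rw [hc, h2, zero_mul]
  exact h0 (Polynomial.funext fun y => by rw [hz, eval_zero])

/-- finitely many nonzero terms -/
theorem summable_of_fin {S : Finset Nat.Primes} {a b : Nat.Primes → ℂ} {V : Finset ℝ} {P : ℝ[X]}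
    (hP : ∀ v ∈ V, P.eval v = 0) (hV : {p : Nat.Primes | p ∉ S ∧ sq a b p ∉ V}.Finite) :
    Summable fun p : Unram S => |P.eval (sq a b p.1)| * Real.log ((p.1 : ℕ) : ℝ) / √((p.1 : ℕ) : ℝ) := by
  have h1 : {p : Unram S | sq a b p.1 ∉ V}.Finite := by
    refine Set.Finite.subset (hV.preimage (f := fun p : Unram S => p.1) Subtype.val_injective.injOn) ?_
    intro p hp
    exact ⟨p.2, hp⟩
  refine summable_of_ne_finset_zero (s := h1.toFinset) fun p hp => ?_
  have h2 : sq a b p.1 ∈ V := by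
    by_contra h3
    exact hp (h1.mem_toFinset.2 h3)
  rw [hP _ h2]
  simp

theorem four_often {S : Finset Nat.Primes} {a b : Nat.Primes → ℂ} {lam : ℝ} (hU : ∀ p ∉ S, Unitary (a p) (b p))
    (h : Cuspidal S a b lam) {Q : ℝ[X]} (hQ0 : Q ≠ 0) (hQd : Q.natDegree ≤ 3)
    (hQ : ∀ p ∉ S, sq a b p = 4 ∨ Q.eval (sq a b p) = 0) :
    ¬ Summable fun p : {p : Nat.Primes // p ∉ S ∧ sq a b p = 4} =>
      Real.log ((p.1 : ℕ) : ℝ) / √((p.1 : ℕ) : ℝ) := by
  classical
  intro hs
  set P : ℝ[X] := Q * (X - C 5) with hP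
  have hP0 : P ≠ 0 := mul_ne_zero hQ0 (X_sub_C_ne_zero 5)
  have hPd : P.natDegree ≤ 4 := by
    refine natDegree_mul_le.trans ?_
    rw [natDegree_X_sub_C]
    omega
  have hP5 : P.eval 5 = 0 := by simp [hP]
  have hsum : Summable fun p : Unram S => |P.eval (sq a b p.1)| * Real.log ((p.1 : ℕ) : ℝ) / √((p.1 : ℕ) : ℝ) := by
    set T : Set (Unram S) := {p | sq a b p.1 = 4} with hT
    have h1 : Summable fun p : T => |P.eval 4| * (Real.log ((p.1.1 : ℕ) : ℝ) / √((p.1.1 : ℕ) : ℝ)) := by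
      have hinj : Function.Injective (fun p : T => (⟨p.1.1, p.1.2, p.2⟩ :
          {p : Nat.Primes // p ∉ S ∧ sq a b p = 4})) := fun p q hpq => by
        have h6 : p.1.1 = q.1.1 := congrArg (fun z : {p : Nat.Primes // p ∉ S ∧ sq a b p = 4} => z.1) hpq
        exact Subtype.ext (Subtype.ext h6)
      exact (hs.comp_injective hinj).mul_left _
    have h2 : Summable (T.indicator fun p : Unram S =>
        |P.eval 4| * (Real.log ((p.1 : ℕ) : ℝ) / √((p.1 : ℕ) : ℝ))) := summable_subtype_iff_indicator.1 h1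
    refine h2.congr fun p => ?_
    by_cases hp : p ∈ T
    · rw [Set.indicator_of_mem hp]
      have h3 : sq a b p.1 = 4 := hp
      rw [h3]
      ring
    · rw [Set.indicator_of_notMem hp]
      have h3 : Q.eval (sq a b p.1) = 0 := (hQ p.1 p.2).resolve_left hp
      have h4 : P.eval (sq a b p.1) = 0 := by
        rw [hP, eval_mul, h3, zero_mul]
      rw [h4]
      simp
  have h5 := (key hU h hP0 hPd hsum).2.2.2
  exact not_exotic hP0 hP5 (h5.imp (fun h => h.2) (fun h => h.2))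

/-- **Selberg's eigenvalue conjecture for Maass newforms with few Hecke eigenvalues.** Let `f` be a Maass newform with
Laplace eigenvalue `lam` and `sq p = |λ(p)|²`.

1. If `|λ(p)|²` takes at most four values outside a finite set of primes, then `lam ≥ 1/4`.
2. If `∑_p |P(|λ(p)|²)| log p / √p < ∞` for one real polynomial `P ≠ 0` of degree at most four, then `lam ≥ 1/4`.
3. If `f` is not of dihedral, tetrahedral or octahedral type, then `|λ(p)|²` takes at least four values, outside every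
finite set of primes. If the series in 2 converges for one `P ≠ 0` of degree at most four, then `lam = 1/4`, `f` is
tempered at all `p ∉ S` and `a_p / b_p` is a root of unity of order at most seven, `P(|λ(p)|²) = 0` for all `p ∉ S`, and
either the values are `0, 1, 3` with densities `1/3, 1/2, 1/6` and `4`, and `P` is a multiple of
`y (y - 1) (y - 3) (y - 4)`, or they are the three numbers `v = 4 cos²(π k / 7)` with densities `(4 - v) / 7` and `4`, and
`P` is a multiple of `(y - 4) (y³ - 5y² + 6y - 1)`; the value `4` has density zero, but `∑ log p / √p` over the primes with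
this value diverges. -/
theorem result {S : Finset Nat.Primes} {a b : Nat.Primes → ℂ} {lam : ℝ} (h : MaassNewform S a b lam) :
    (∀ V : Finset ℝ, V.card ≤ 4 → {p : Nat.Primes | p ∉ S ∧ sq a b p ∉ V}.Finite → 1 / 4 ≤ lam) ∧
    (∀ P : ℝ[X], P ≠ 0 → P.natDegree ≤ 4 → (Summable fun p : Unram S =>
      |P.eval (sq a b p.1)| * Real.log ((p.1 : ℕ) : ℝ) / √((p.1 : ℕ) : ℝ)) → 1 / 4 ≤ lam) ∧
    (Cuspidal S a b lam →
      (∀ V : Finset ℝ, V.card ≤ 3 → {p : Nat.Primes | p ∉ S ∧ sq a b p ∉ V}.Infinite) ∧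
      ∀ P : ℝ[X], P ≠ 0 → P.natDegree ≤ 4 → (Summable fun p : Unram S =>
        |P.eval (sq a b p.1)| * Real.log ((p.1 : ℕ) : ℝ) / √((p.1 : ℕ) : ℝ)) →
        lam = 1 / 4 ∧ (∀ p ∉ S, ‖a p‖ = 1 ∧ ‖b p‖ = 1 ∧ ∃ n : ℕ, 1 ≤ n ∧ n ≤ 7 ∧ (a p / b p) ^ n = 1) ∧
        (∀ p ∉ S, P.eval (sq a b p) = 0) ∧
        (¬ Summable fun p : {p : Nat.Primes // p ∉ S ∧ sq a b p = 4} =>
          Real.log ((p.1 : ℕ) : ℝ) / √((p.1 : ℕ) : ℝ)) ∧
        ((PatternSix S a b ∧ ∃ c : ℝ, ∀ y : ℝ, P.eval y = c * (y * (y - 1) * (y - 3) * (y - 4))) ∨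
         (PatternSeven S a b ∧ ∃ c : ℝ, ∀ y : ℝ, P.eval y = c * ((y - 4) * (y ^ 3 - 5 * y ^ 2 + 6 * y - 1))))) := by
  have h2 : ∀ P : ℝ[X], P ≠ 0 → P.natDegree ≤ 4 → (Summable fun p : Unram S =>
      |P.eval (sq a b p.1)| * Real.log ((p.1 : ℕ) : ℝ) / √((p.1 : ℕ) : ℝ)) → 1 / 4 ≤ lam := by
    intro P h0 hd hs
    by_contra hlam
    push Not at hlam
    have h1 := (key h.unitary (h.exceptional hlam) h0 hd hs).1
    linarith
  refine ⟨?_, h2, fun hC => ⟨?_, fun P h0 hd hs => ?_⟩⟩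
  · intro V hV hfin
    obtain ⟨P, h0, hd, hP⟩ := Pool.Agent.Y818.FV.prod_pp V hV
    exact h2 P h0 hd (summable_of_fin hP hfin)
  · intro V hV hfin
    classical
    have hV' : (insert 5 V).card ≤ 4 := (Finset.card_insert_le _ _).trans (by omega)
    obtain ⟨P, h0, hd, hP⟩ := Pool.Agent.Y818.FV.prod_pp (insert 5 V) hV'
    have hsum := summable_of_fin (S := S) (a := a) (b := b) (V := V) (P := P)
      (fun v hv => hP v (Finset.mem_insert_of_mem hv)) hfin
    have h5 := (key h.unitary hC h0 hd hsum).2.2.2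
    exact not_exotic h0 (hP 5 (Finset.mem_insert_self _ _)) (h5.imp (fun h => h.2) (fun h => h.2))
  · obtain ⟨r1, r2, r3, r4⟩ := key h.unitary hC h0 hd hs
    refine ⟨r1, r2, r3, ?_, r4⟩
    rcases r4 with ⟨⟨hy, -⟩, -⟩ | ⟨⟨hy, -⟩, -⟩
    · refine four_often h.unitary hC (Q := X * (X - C 1) * (X - C 3))
        (mul_ne_zero (mul_ne_zero X_ne_zero (X_sub_C_ne_zero 1)) (X_sub_C_ne_zero 3)) ?_ fun p hp => ?_
      · refine natDegree_mul_le.trans ?_
        have h3 : (X * (X - C (1 : ℝ))).natDegree ≤ 2 := by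
          refine natDegree_mul_le.trans ?_
          rw [natDegree_X_sub_C, natDegree_X]
        rw [natDegree_X_sub_C]
        omega
      · rcases hy p hp with h3 | h3 | h3 | h3
        · right; rw [h3]; simp
        · right; rw [h3]; simp
        · right; rw [h3]; simp
        · exact Or.inl h3
    · refine four_often h.unitary hC (Q := X ^ 3 - 5 * X ^ 2 + 6 * X - 1) ?_ ?_ fun p hp => ?_
      · intro h3
        have h4 := congrArg (Polynomial.eval 0) h3
        simp at h4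
      · compute_degree
      · rcases hy p hp with h3 | h3
        · exact Or.inl h3
        · right
          simpa using h3

end Pool.Agent.Results.MP_a812b2_nt.FewValues
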