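import Mathlib
import Pool.Agent.TH949.TX.Rat4
import Pool.Agent.TH949.RES.RAM2
import Pool.Agent.Y725.SE.Alg

/-!
# Selberg's eigenvalue conjecture for Maass forms with integral squared Hecke eigenvalues

Let `f` be a Maass newform of weight zero, of any level and with any nebentypus, with Laplace eigenvalue `lam > 0`; let
`S` be a finite set of primes which contains the divisors of the level, `a_p`, `b_p` (`p ∉ S`) the Satake parameters
and `λ(p) = a_p + b_p` the Hecke eigenvalues. (Every Laplace eigenvalue `≠ 0` of a cusp form for a congruence subgroup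
is the eigenvalue of such a newform; the residual and continuous spectrum gives no eigenvalue in `(0, 1/4)`.)

* (1) If `|λ(p)|²` is an integer for all primes outside a set with at most `C X^c` elements up to `X`, for some
  `c < 25/49`, then `lam ≥ 1/4`: the conjecture is true for `f`. More generally it is enough that `|λ(p)|²` lies in
  `(0, 1) ∪ (2, 3)` for at most `C X^c` primes `p ≤ X`.
* (2) If `|λ(p)|²` lies in `(0, 1) ∪ (2, 3)` for at most `C X^c` primes `p ≤ X`, then `lam ≥ 1/4 - c²/64`. (For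
  `c < 7/8` this is better than the bound `975/4096 = 1/4 - (7/64)²` of Kim and Sarnak.)
* (3) If `lam < 1/4`, or, more generally, if `f` is not of dihedral, tetrahedral or octahedral type, then for every
  `c < 1/2` and all large `X` there are at least `X^c` primes `p ≤ X` for which `|λ(p)|²` lies in `(0, 4)` and is not
  an integer.
* (4) If `lam = 1/4 - ν²` with `ν > 1/16` (so `lam < 63/256`), then for every `c < 8ν` and every `δ > 0`, for all large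
  `X` there are at least `X^c` primes `p` in `[X^{1-δ}, X]` with `|λ(p)|²` in `(0, 1) ∪ (2, 3)`.

Known before: if all `λ(p)` are rational integers, then `lam ≥ 1/4` (Sarnak 2002; Brumley 2003 for quadratic
integers). The proofs use the moments of `|λ(p)|²` up to the fourth one; these are compatible with `|λ(p)|²` being
`0`, `1`, `3` for one third, one half and one sixth of the primes, so that they do not exclude integral squares.

The proof: let `Π = A⁴(π) = Sym⁴(π) ⊗ ω⁻²` on `GL_5` (Kim), which is cuspidal (Kim, Shahidi). With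
`y = |λ(p)|²` one has `|tr Π_p|² - 1 = y (y - 1) (y - 2) (y - 3)`, and `tr Π_p` is an odd integer if `y` is an
integer, together with the traces of all powers. On the other hand small traces `|tr Π_p^k| < 1` occur at every
scale, as `L(s, Π × Π~) / ζ(s)` has singularities close to the line `Re s = 1/2` (in (2) and (4) at the trivial zero
`s = 8ν` of `L(s, Π × Π~)`), by the explicit formula with a Gaussian weight of `Pool.Agent.TH949.TX`.
-/

set_option autoImplicit false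

namespace Pool.Agent.Results.MP_a812b2_nt.IntegralSquares

open Filter

/-- the primes outside the finite set `S` -/
abbrev Unram (S : Finset Nat.Primes) := {p : Nat.Primes // p ∉ S}

/-- the Satake parameters of the lift `Π = A⁴(π) = Sym⁴(π) ⊗ ω⁻²` if `π` has the Satake parameters `a, b` -/
noncomputable def fourth (a b : ℂ) : Fin 5 → ℂ := ![(a / b) ^ 2, a / b, 1, b / a, (b / a) ^ 2]

/-- the trace `∑_i γ_i^k` of the `k`-th power of the Satake parameters of `Π` -/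
noncomputable def tr (a b : ℂ) (k : ℕ) : ℂ := ∑ i, fourth a b i ^ k

/-- `log L^S(s, Π × Π~) = ∑_{p ∉ S} ∑_{k ≥ 1} |tr Π_p^k|² / (k p^{ks})` -/
noncomputable def logL {S : Finset Nat.Primes} (a b : Unram S → ℂ) (s : ℂ) : ℂ :=
  ∑' x : Unram S × ℕ, ((‖tr (a x.1) (b x.1) (x.2 + 1)‖ ^ 2 / ((x.2 : ℝ) + 1) : ℝ) : ℂ) *
    (((x.1.1 : ℕ) : ℂ) ^ (-s)) ^ (x.2 + 1)

/-- The properties of the Rankin-Selberg `L`-function `L(s, Π × Π~)` of a cuspidal `Π = A⁴(π)` on `GL_5` over `ℚ`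
which are used: `β p` are the reciprocal roots of the Euler factors at the primes of `S`, and `0, κ` are the
parameters of the 25 Gamma factors. -/
structure CuspidalLift {S : Finset Nat.Primes} (a b : Unram S → ℂ) (β : Nat.Primes → Fin (5 ^ 2) → ℂ) (κ : Fin (5 ^ 2 - 1) → ℂ) :
    Prop where
  /-- `Π × Π~` is Hermitian at the real place -/
  conj : Multiset.map (fun j => (starRingEnd ℂ) (κ j)) Finset.univ.val = Multiset.map κ Finset.univ.val
  /-- absolute convergence for `Re s > 1` -/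
  summable : ∀ σ : ℝ, 1 < σ → Summable fun x : Unram S × ℕ =>
    ‖tr (a x.1) (b x.1) (x.2 + 1)‖ ^ 2 / ((x.2 : ℝ) + 1) * (((x.1.1 : ℕ) : ℝ) ^ (-σ)) ^ (x.2 + 1)
  /-- `L(s, Π × Π~) = G(s) / (s - 1)` with `G` entire of polynomial growth in vertical strips, and
  `Ξ(s) = s (s - 1) Q^s Γ_ℝ(s) ∏_j Γ_ℝ(s + κ_j) L(s, Π × Π~)` is entire and satisfies the functional equation -/
  continuation : ∃ (G Ξ : ℂ → ℂ) (Q : ℝ) (ω : ℂ), Differentiable ℂ G ∧ Differentiable ℂ Ξ ∧ 0 < Q ∧ ω ≠ 0 ∧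
    (∀ s : ℂ, 1 < s.re → G s * ∏ p ∈ S, ∏ i, (1 - β p i * ((p : ℕ) : ℂ) ^ (-s)) =
      (s - 1) * Complex.exp (logL a b s)) ∧
    (∀ u v : ℝ, ∃ C A : ℝ, ∀ s : ℂ, u ≤ s.re → s.re ≤ v → ‖G s‖ ≤ C * (1 + |s.im|) ^ A) ∧
    (∀ s : ℂ, 1 < s.re → Ξ s = s * G s * ((Q : ℂ) ^ s * Complex.Gammaℝ s * ∏ j, Complex.Gammaℝ (s + κ j))) ∧
    ∀ s : ℂ, Ξ (1 - s) = ω * Ξ s

/-- What is used of a Maass newform `f` of weight zero with Laplace eigenvalue `lam` and Satake parameters `a p`, `b p`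
at the primes outside `S`. -/
structure MaassNewform {S : Finset Nat.Primes} (a b : Unram S → ℂ) (lam : ℝ) : Prop where
  /-- the Satake parameters are nonzero -/
  ne_zero : ∀ p, a p ≠ 0 ∧ b p ≠ 0
  /-- `π_p` is unitary: complex conjugation induces `{a, b} → {1/a, 1/b}` -/
  unitary : ∀ p, ((starRingEnd ℂ) (a p) = (a p)⁻¹ ∧ (starRingEnd ℂ) (b p) = (b p)⁻¹) ∨
    ((starRingEnd ℂ) (a p) = (b p)⁻¹ ∧ (starRingEnd ℂ) (b p) = (a p)⁻¹)
  /-- if `lam = 1/4 - ν² < 1/4`, then the lift `A⁴(π)` is cuspidal, and one of its Gamma factors is `Γ_ℝ(s - 8ν)` -/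
  exceptional : lam < 1 / 4 → ∃ (β : Nat.Primes → Fin (5 ^ 2) → ℂ) (κ : Fin (5 ^ 2 - 1) → ℂ), CuspidalLift a b β κ ∧
    ∃ j, κ j = -((8 * Real.sqrt (1 / 4 - lam) : ℝ) : ℂ)

/-- `|λ(p)|²` -/
noncomputable def sq {S : Finset Nat.Primes} (a b : Unram S → ℂ) (p : Unram S) : ℝ := ‖a p + b p‖ ^ 2

/-- the real number `y` lies in `(0, 1) ∪ (2, 3)` -/
def Gap (y : ℝ) : Prop := (0 < y ∧ y < 1) ∨ (2 < y ∧ y < 3)

/-- the number of the primes `p ≤ X` outside `S` with the property `E` -/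
noncomputable def count {S : Finset Nat.Primes} (E : Unram S → Prop) (X : ℝ) : ℕ :=
  {p : Unram S | ((p.1 : ℕ) : ℝ) ≤ X ∧ E p}.ncard

theorem toRep {S : Finset Nat.Primes} {a b : Unram S → ℂ} {β : Nat.Primes → Fin (5 ^ 2) → ℂ} {κ : Fin (5 ^ 2 - 1) → ℂ}
    (h0 : ∀ p, a p ≠ 0 ∧ b p ≠ 0)
    (hU : ∀ p, ((starRingEnd ℂ) (a p) = (a p)⁻¹ ∧ (starRingEnd ℂ) (b p) = (b p)⁻¹) ∨
      ((starRingEnd ℂ) (a p) = (b p)⁻¹ ∧ (starRingEnd ℂ) (b p) = (a p)⁻¹))
    (h : CuspidalLift a b β κ) :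
    Pool.Agent.TH949.RES.CuspidalRep (n := 5) S (fun p => Pool.Agent.Y725.SE.fourth (a p) (b p)) β κ where
  ne_zero := by
    intro p i
    obtain ⟨ha, hb⟩ := h0 p
    fin_cases i <;> simp [Pool.Agent.Y725.SE.fourth, ha, hb]
  unitary := by
    intro p
    obtain ⟨ha, hb⟩ := h0 p
    rcases hU p with ⟨h1, h2⟩ | ⟨h1, h2⟩
    · refine ⟨Equiv.refl _, fun i => ?_⟩
      fin_cases i <;> simp [Pool.Agent.Y725.SE.fourth, h1, h2] <;> field_simp
    · refine ⟨Fin.revPerm, fun i => ?_⟩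
      fin_cases i <;> simp [Pool.Agent.Y725.SE.fourth, h1, h2, Fin.rev, Fin.revPerm] <;> field_simp
  conj := h.conj
  summable := h.summable
  continuation := h.continuation

/-- **Small traces for lifts.** -/
theorem many {S : Finset Nat.Primes} {a b : Unram S → ℂ} {β : Nat.Primes → Fin (5 ^ 2) → ℂ} {κ : Fin (5 ^ 2 - 1) → ℂ}
    (h0 : ∀ p, a p ≠ 0 ∧ b p ≠ 0)
    (hU : ∀ p, ((starRingEnd ℂ) (a p) = (a p)⁻¹ ∧ (starRingEnd ℂ) (b p) = (b p)⁻¹) ∨
      ((starRingEnd ℂ) (a p) = (b p)⁻¹ ∧ (starRingEnd ℂ) (b p) = (a p)⁻¹))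
    (h : CuspidalLift a b β κ) {c : ℝ} (hc : c < 1 / 2) :
    ∃ X₀ : ℝ, ∀ X : ℝ, X₀ ≤ X →
      X ^ c ≤ (count (fun p : Unram S => 0 < sq a b p ∧ sq a b p < 4 ∧ ∀ m : ℤ, sq a b p ≠ m) X : ℝ) := by
  have hR := toRep h0 hU h
  have hA : Pool.Agent.TH949.TX.Adm (n := 5) S (fun p => Pool.Agent.Y725.SE.fourth (a p) (b p)) β κ c := Or.inl hc
  have h1 := Pool.Agent.TH949.TX.adm_key (n := 5) (by norm_num) hR (c := c) (lam := 1) hA one_pos
  have h3 := (Pool.Agent.TH949.TX.rat_fin (n := 5) (S := S)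
    (α := fun p => Pool.Agent.Y725.SE.fourth (a p) (b p)) (c := c) (lam := 1) h1).2.2
  refine eventually_atTop.1 (h3 (fun p => 0 < sq a b p ∧ sq a b p < 4 ∧ ∀ m : ℤ, sq a b p ≠ m) fun p k hk => ?_)
  obtain ⟨ha, hb⟩ := h0 p
  by_contra hcon
  have h4 : 4 ≤ ‖a p + b p‖ ^ 2 ∨ ∃ m : ℤ, ‖a p + b p‖ ^ 2 = m := by
    by_contra h5
    push Not at h5
    apply hcon
    refine ⟨?_, h5.1, h5.2⟩
    have h6 : 0 ≤ sq a b p := by unfold sq; positivity
    rcases h6.lt_or_eq with h7 | h7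
    · exact h7
    · exact absurd (by rw [Int.cast_zero]; exact h7.symm) (h5.2 0)
  exact absurd hk (not_lt.2 (Pool.Agent.Y725.SE.big_trace ha hb (hU p) h4 (k + 1)))

theorem windows {S : Finset Nat.Primes} {a b : Unram S → ℂ} {β : Nat.Primes → Fin (5 ^ 2) → ℂ} {κ : Fin (5 ^ 2 - 1) → ℂ}
    (h0 : ∀ p, a p ≠ 0 ∧ b p ≠ 0)
    (hU : ∀ p, ((starRingEnd ℂ) (a p) = (a p)⁻¹ ∧ (starRingEnd ℂ) (b p) = (b p)⁻¹) ∨
      ((starRingEnd ℂ) (a p) = (b p)⁻¹ ∧ (starRingEnd ℂ) (b p) = (a p)⁻¹))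
    (h : CuspidalLift a b β κ) {x : ℝ} (hx : ∃ j, κ j = -(x : ℂ)) {c δ : ℝ} (hc : 1 / 2 ≤ c) (hcx : c < x)
    (hδ : 0 < δ) :
    ∃ X₀ : ℝ, ∀ X : ℝ, X₀ ≤ X →
      X ^ c ≤ (count (fun p : Unram S => X ^ (1 - δ) ≤ ((p.1 : ℕ) : ℝ) ∧
        Gap (sq a b p)) X : ℝ) := by
  have hR := toRep h0 hU h
  obtain ⟨j, hj⟩ := hx
  have hA : Pool.Agent.TH949.TX.Adm (n := 5) S (fun p => Pool.Agent.Y725.SE.fourth (a p) (b p)) β κ c :=
    Or.inr (Or.inr (Or.inr (Or.inl ⟨j, x, hj, hcx⟩)))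
  have h1 := Pool.Agent.TH949.TX.adm_key (n := 5) (by norm_num) hR (c := c) (lam := δ) hA hδ
  have h2 := (Pool.Agent.TH949.TX.rat_fin (n := 5) (S := S)
    (α := fun p => Pool.Agent.Y725.SE.fourth (a p) (b p)) (c := c) (lam := δ) h1).2.1
  obtain ⟨X₀, hX₀⟩ := eventually_atTop.1 (h2 hc)
  refine ⟨X₀, fun X hX => (hX₀ X hX).trans ?_⟩
  classical
  set T : Set (Unram S) := {p : Unram S | ((p.1 : ℕ) : ℝ) ≤ X ∧ (X ^ (1 - δ) ≤ ((p.1 : ℕ) : ℝ) ∧
        Gap (sq a b p))} with hT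
  have hfin : T.Finite := by
    have h1 : {p : Nat.Primes | (p : ℕ) ≤ ⌊X⌋₊}.Finite := Pool.Agent.TH949.RES.primes_finite _
    refine (h1.preimage (f := fun p : Unram S => p.1) Subtype.val_injective.injOn).subset ?_
    rintro p ⟨hp, -⟩
    exact Nat.le_floor hp
  have hval : ∀ p : Unram S, (if X ^ (1 - δ) ≤ ((p.1 : ℕ) : ℝ) ∧ ((p.1 : ℕ) : ℝ) ≤ X then
      max 0 (1 - ‖∑ i, Pool.Agent.Y725.SE.fourth (a p) (b p) i‖ ^ 2) else 0) ≤ if p ∈ T then 1 else 0 := by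
    intro p
    obtain ⟨ha, hb⟩ := h0 p
    by_cases hw : X ^ (1 - δ) ≤ ((p.1 : ℕ) : ℝ) ∧ ((p.1 : ℕ) : ℝ) ≤ X
    · rw [if_pos hw]
      by_cases hs : ‖∑ i, Pool.Agent.Y725.SE.fourth (a p) (b p) i‖ < 1
      · have hp : p ∈ T := ⟨hw.2, hw.1, Pool.Agent.Y725.SE.small_trace ha hb (hU p) hs⟩
        rw [if_pos hp]
        exact max_le zero_le_one (by nlinarith [sq_nonneg ‖∑ i, Pool.Agent.Y725.SE.fourth (a p) (b p) i‖])
      · push Not at hs
        have h5 : (1 : ℝ) - ‖∑ i, Pool.Agent.Y725.SE.fourth (a p) (b p) i‖ ^ 2 ≤ 0 := by nlinarith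
        rw [max_eq_left h5]
        split_ifs <;> norm_num
    · rw [if_neg hw]
      split_ifs <;> norm_num
  have hsum : (∑' p : Unram S, (if p ∈ T then (1 : ℝ) else 0)) = T.ncard := by
    rw [tsum_eq_sum (s := hfin.toFinset) (fun p hp => if_neg (by simpa using hp))]
    rw [Finset.sum_congr rfl (fun p hp => if_pos (by simpa using hp))]
    rw [Finset.sum_const, nsmul_eq_mul, mul_one, Set.ncard_eq_toFinset_card T hfin]
  have hsb : Summable fun p : Unram S => (if p ∈ T then (1 : ℝ) else 0) :=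
    summable_of_ne_finset_zero (s := hfin.toFinset) (fun p hp => if_neg (by simpa using hp))
  have hsa : Summable fun p : Unram S => (if X ^ (1 - δ) ≤ ((p.1 : ℕ) : ℝ) ∧ ((p.1 : ℕ) : ℝ) ≤ X then
      max 0 (1 - ‖∑ i, Pool.Agent.Y725.SE.fourth (a p) (b p) i‖ ^ 2) else 0) := by
    refine Summable.of_nonneg_of_le (fun p => ?_) hval hsb
    split_ifs
    · exact le_max_left _ _
    · exact le_rfl
  have key := hsa.tsum_le_tsum hval hsb
  rw [hsum] at key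
  refine le_trans (le_of_eq ?_) key
  exact tsum_congr fun p => by congr

theorem often {S : Finset Nat.Primes} {a b : Unram S → ℂ} {β : Nat.Primes → Fin (5 ^ 2) → ℂ} {κ : Fin (5 ^ 2 - 1) → ℂ}
    (h0 : ∀ p, a p ≠ 0 ∧ b p ≠ 0)
    (hU : ∀ p, ((starRingEnd ℂ) (a p) = (a p)⁻¹ ∧ (starRingEnd ℂ) (b p) = (b p)⁻¹) ∨
      ((starRingEnd ℂ) (a p) = (b p)⁻¹ ∧ (starRingEnd ℂ) (b p) = (a p)⁻¹))
    (h : CuspidalLift a b β κ) {c : ℝ} (hc : c < 25 / 49 ∨ ∃ (j : Fin (5 ^ 2 - 1)) (x : ℝ), κ j = -(x : ℂ) ∧ c < x)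
    (C X : ℝ) : ∃ x : ℝ, X ≤ x ∧ C * x ^ c < (count (fun p : Unram S => Gap (sq a b p)) x : ℝ) := by
  have hR := toRep h0 hU h
  have hA : Pool.Agent.TH949.RES.Admissible (n := 5) S (fun p => Pool.Agent.Y725.SE.fourth (a p) (b p)) β κ c := by
    rcases hc with hc | hc
    · left
      norm_num
      exact hc
    · exact Or.inr (Or.inr (Or.inr hc))
  obtain ⟨x, hx, h1⟩ := Pool.Agent.TH949.RES.ram_count (n := 5) (by norm_num) hR hA C (max X 1)
  refine ⟨x, (le_max_left _ _).trans hx, h1.trans_le ?_⟩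
  have hfin : {p : Unram S | ((p.1 : ℕ) : ℝ) ≤ x ∧ Gap (sq a b p)}.Finite := by
    have h1 : {p : Nat.Primes | (p : ℕ) ≤ ⌊x⌋₊}.Finite := Pool.Agent.TH949.RES.primes_finite _
    refine (h1.preimage (f := fun p : Unram S => p.1) Subtype.val_injective.injOn).subset ?_
    rintro p ⟨hp, -⟩
    exact Nat.le_floor hp
  have hsub : {p : Unram S | ((p.1 : ℕ) : ℝ) ≤ x ∧ ‖∑ i, Pool.Agent.Y725.SE.fourth (a p) (b p) i‖ < 1} ⊆
      {p : Unram S | ((p.1 : ℕ) : ℝ) ≤ x ∧ Gap (sq a b p)} := fun p hp =>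
    ⟨hp.1, Pool.Agent.Y725.SE.small_trace (h0 p).1 (h0 p).2 (hU p) hp.2⟩
  unfold count
  exact_mod_cast Set.ncard_le_ncard hsub hfin

/-- **Selberg's eigenvalue conjecture for integral squared Hecke eigenvalues.** Let `f` be a Maass newform with
Laplace eigenvalue `lam`; integral squares `|λ(p)|²` do not lie in `(0, 1) ∪ (2, 3)`.

1. If at most `C X^c` primes `p ≤ X` have `|λ(p)|²` in `(0, 1) ∪ (2, 3)`, `c < 25/49`, then `lam ≥ 1/4`.
2. If at most `C X^c` primes `p ≤ X` have `|λ(p)|²` in `(0, 1) ∪ (2, 3)`, then `lam ≥ 1/4 - c²/64`.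
3. If `A⁴(π)` is cuspidal (in particular if `lam < 1/4`), then for every `c < 1/2` and all large `X` there are at least
`X^c` primes `p ≤ X` for which `|λ(p)|²` lies in `(0, 4)` and is not an integer.
4. If `lam < 1/4`, then for `1/2 ≤ c < 8 √(1/4 - lam)`, `δ > 0` and all large `X` there are at least `X^c` primes `p`,
`X^{1-δ} ≤ p ≤ X`, for which `|λ(p)|²` lies in `(0, 1) ∪ (2, 3)`. -/
theorem result {S : Finset Nat.Primes} {a b : Unram S → ℂ} {lam : ℝ} (h : MaassNewform a b lam) :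
    ((∃ c C : ℝ, c < 25 / 49 ∧ ∀ X : ℝ, 1 ≤ X →
        (count (fun p : Unram S => Gap (sq a b p)) X : ℝ) ≤ C * X ^ c) → 1 / 4 ≤ lam) ∧
    (∀ c C : ℝ, (∀ X : ℝ, 1 ≤ X →
        (count (fun p : Unram S => Gap (sq a b p)) X : ℝ) ≤ C * X ^ c) → 1 / 4 - c ^ 2 / 64 ≤ lam) ∧
    ((lam < 1 / 4 ∨ ∃ (β : Nat.Primes → Fin (5 ^ 2) → ℂ) (κ : Fin (5 ^ 2 - 1) → ℂ), CuspidalLift a b β κ) →
      ∀ c : ℝ, c < 1 / 2 → ∃ X₀ : ℝ, ∀ X : ℝ, X₀ ≤ X → X ^ c ≤
        (count (fun p : Unram S => 0 < sq a b p ∧ sq a b p < 4 ∧ ∀ m : ℤ, sq a b p ≠ m) X : ℝ)) ∧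
    (lam < 1 / 4 → ∀ c δ : ℝ, 1 / 2 ≤ c → c < 8 * Real.sqrt (1 / 4 - lam) → 0 < δ →
      ∃ X₀ : ℝ, ∀ X : ℝ, X₀ ≤ X → X ^ c ≤
        (count (fun p : Unram S => X ^ (1 - δ) ≤ ((p.1 : ℕ) : ℝ) ∧ Gap (sq a b p)) X : ℝ)) := by
  refine ⟨?_, ?_, ?_, ?_⟩
  · rintro ⟨c, C, hc, hcount⟩
    by_contra hl
    push Not at hl
    obtain ⟨β, κ, hL, -⟩ := h.exceptional hl
    obtain ⟨x, hx, h1⟩ := often h.ne_zero h.unitary hL (Or.inl hc) C 1
    exact absurd (hcount x hx) (not_le.2 h1)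
  · intro c C hcount
    by_contra hl
    push Not at hl
    have hl4 : lam < 1 / 4 := by nlinarith [sq_nonneg c]
    obtain ⟨β, κ, hL, j, hj⟩ := h.exceptional hl4
    have h2 : c < 8 * Real.sqrt (1 / 4 - lam) := by
      have h3 : c / 8 < Real.sqrt (1 / 4 - lam) := by
        refine lt_of_le_of_lt (le_abs_self _) ?_
        refine Real.lt_sqrt_of_sq_lt ?_
        rw [sq_abs]
        linarith
      linarith
    obtain ⟨x, hx, h1⟩ := often h.ne_zero h.unitary hL (Or.inr ⟨j, _, hj, h2⟩) C 1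
    exact absurd (hcount x hx) (not_le.2 h1)
  · rintro (hl | ⟨β, κ, hL⟩) c hc
    · obtain ⟨β, κ, hL, -⟩ := h.exceptional hl
      exact many h.ne_zero h.unitary hL hc
    · exact many h.ne_zero h.unitary hL hc
  · intro hl c δ hc hcx hδ
    obtain ⟨β, κ, hL, hj⟩ := h.exceptional hl
    exact windows h.ne_zero h.unitary hL hj hc hcx hδ

end Pool.Agent.Results.MP_a812b2_nt.IntegralSquares
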