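import Mathlib
import Pool.Agent.Y725.UG.Rat
import Pool.Agent.Y725.SE.Alg
import Pool.Agent.TH949.UL.PGL

/-!
# Selberg's eigenvalue conjecture: a finite criterion in terms of the Hecke eigenvalues

Let `f` be a Maass newform of weight zero, of any level and with any nebentypus, with Laplace eigenvalue `lam`. We show:
for every `ε > 0` there is an absolute constant `A` such that, if `lam < 1/4`, then there are a prime `p ∉ S` and
`k ≥ 1` with

  `p^k ≤ A C^{1+ε}`, `|a_p^k + b_p^k|²` in `(0, 1) ∪ (2, 3)`, and `|λ(p)|²` in `(0, 4)` and not an integer,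

where `a_p, b_p` are the Satake parameters, `λ(p) = a_p + b_p`, and `C = Q² ∏_{(p, i) ∈ T} p` is defined below. So the
conjecture holds for `f` as soon as `|λ(p)|²` is an integer for all primes `p ≤ A C^{1+ε}`, `p ∉ S`.
For squarefree level `N` and trivial nebentypus one has `C = N^20`, and `S` is the set of the primes dividing `N`.

Here `Π = A⁴(π) = Sym⁴(π) ⊗ ω⁻²` on `GL_5`, `Q²` is the conductor of `L(s, Π × Π~)` and `S` is the set of the primes at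
which `π_p` is not a twist of an unramified representation (for `p ∉ S` dividing the level, `a_p, b_p` belong to the
unramified unitary twist). At `p ∈ S`, `β_{p,i}` are the reciprocal roots of `L(s, Π_p × Π~_p) / ζ_p(s)`, filled up with
zeros, and `T` consists of pairs `(p, i)`, `p ∈ S`, with `|β_{p,i}| = 1`, such that `∑_i β_{p,i}^k`, `(p, i) ∉ T`, is
nonnegative for all `k ≥ 1`. Such a `T` exists: if `π_p` is a twist of the Steinberg representation, the roots are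
`p⁻¹, p⁻², p⁻³, p⁻⁴` and `T` is empty at `p`; otherwise `π_p`, `p ∈ S`, is tempered and its parameter is trivial on
`SL_2`, all roots are units and `T` may contain all of them. So `C ≤ Q² ∏_{p ∈ S} p^24`.

Known before: the analogous statements for a fixed form and infinitely many primes, see `IntegralSquares` of this
problem, and `lam ≥ 1/4` if all `λ(p)` are rational integers (Sarnak 2002; Brumley 2003 for quadratic integers). There
was no criterion which involves finitely many primes.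

The structures `MaassNewform` and `Lift` list what is used; all of it is known: `π_p` is unitary; the lift `Π` of an
exceptional `f` is cuspidal (Kim, Kim-Shahidi); the bounds of Jacquet and Shalika for `Π`; `L(s, Π × Π~)` is entire
except for a simple pole at `s = 1`, of polynomial growth in vertical strips, with its functional equation, and its
Gamma factors are `Γ_ℝ(s + 2ν(i - j))`, `0 ≤ i, j ≤ 4`, if `lam = 1/4 - ν²`.

The proof: the uniform version of Landau's theorem of `Pool.Agent.TH949.UL`, in the form `Pool.Agent.Y725.UG.rat_least`,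
yields `p^k` with `|tr Π_p^k| < 1`. With `y = |a_p^k + b_p^k|²` one has `|tr Π_p^k|² - 1 = y (y - 1) (y - 2) (y - 3)`; and
if `|λ(p)|²` is an integer or at least four, then `tr Π_p^k` is an odd integer or at least one for all `k`.
-/

set_option autoImplicit false

namespace Pool.Agent.Results.MP_a812b2_nt.LeastNonintegralSquare

/-- the primes outside the finite set `S` -/
abbrev Unram (S : Finset Nat.Primes) := {p : Nat.Primes // p ∉ S}

/-- the Satake parameters of the lift `Π = A⁴(π) = Sym⁴(π) ⊗ ω⁻²` if `π` has the Satake parameters `a, b` -/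
noncomputable def fourth (a b : ℂ) : Fin 5 → ℂ := ![(a / b) ^ 2, a / b, 1, b / a, (b / a) ^ 2]

/-- `∑_{p ∉ S} ∑_{k ≥ 1} (|tr Π_p^k|² - 1) / k · p^{-ks}`, the logarithm of `L^S(s, Π × Π~) / ζ^S(s)` -/
noncomputable def logAd {S : Finset Nat.Primes} (a b : Unram S → ℂ) (s : ℂ) : ℂ :=
  ∑' x : Unram S × ℕ, (((‖∑ i, fourth (a x.1) (b x.1) i ^ (x.2 + 1)‖ ^ 2 - 1) / ((x.2 : ℝ) + 1) : ℝ) : ℂ) *
    (((x.1.1 : ℕ) : ℂ) ^ (-s)) ^ (x.2 + 1)

/-- What is used of the lift `Π = A⁴(π)` of an exceptional form with Laplace eigenvalue `1/4 - ν²`. -/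
structure Lift {S : Finset Nat.Primes} (a b : Unram S → ℂ) (ν : ℝ) (β : Nat.Primes → Fin 24 → ℂ)
    (T : Finset (Nat.Primes × Fin 24)) (Q : ℝ) : Prop where
  /-- the bound of Jacquet and Shalika for `Π` -/
  bound : ∀ p i, ‖fourth (a p) (b p) i‖ < ((p.1 : ℕ) : ℝ) ^ (1 / 2 : ℝ)
  /-- the same at infinity -/
  bound_real : 4 * ν < 1 / 2
  /-- the same at the primes of `S` -/
  ramified : ∀ p ∈ S, ∀ i, ‖β p i‖ < ((p : ℕ) : ℝ)
  /-- the removed factors -/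
  removed : ∀ x ∈ T, x.1 ∈ S ∧ ‖β x.1 x.2‖ = 1
  /-- the logarithms of the other factors at `S` have nonnegative coefficients -/
  nonneg : ∀ p ∈ S, ∀ k : ℕ, ∃ c : ℝ, 0 ≤ c ∧
    ∑ i, Set.indicator {i | (p, i) ∉ T} (fun i => β p i ^ (k + 1)) i = (c : ℂ)
  /-- the conductor -/
  one_le : 1 ≤ Q
  /-- `L(s, Π × Π~) = G(s) / (s - 1)` and its functional equation -/
  continuation : ∃ (G Ξ : ℂ → ℂ) (ω : ℂ), Differentiable ℂ G ∧ Differentiable ℂ Ξ ∧ ‖ω‖ = 1 ∧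
    (∀ s : ℂ, 1 < s.re → G s * ∏ p ∈ S, ∏ i, (1 - β p i * ((p : ℕ) : ℂ) ^ (-s)) =
      (s - 1) * riemannZeta s * Complex.exp (logAd a b s)) ∧
    (∀ u v : ℝ, ∃ C A : ℝ, ∀ s : ℂ, u ≤ s.re → s.re ≤ v → ‖G s‖ ≤ C * (1 + |s.im|) ^ A) ∧
    (∀ s : ℂ, 1 < s.re → Ξ s = s * G s * ((Q : ℂ) ^ s *
      ∏ i : Fin 5, ∏ j : Fin 5, Complex.Gammaℝ (s + 2 * ν * (((i : ℕ) : ℂ) - ((j : ℕ) : ℂ))))) ∧
    ∀ s : ℂ, Ξ (1 - s) = ω * Ξ s

/-- What is used of a Maass newform of weight zero with Laplace eigenvalue `lam` and Satake parameters `a p`, `b p` at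
the primes outside `S`. -/
structure MaassNewform {S : Finset Nat.Primes} (a b : Unram S → ℂ) (lam : ℝ) (β : Nat.Primes → Fin 24 → ℂ)
    (T : Finset (Nat.Primes × Fin 24)) (Q : ℝ) : Prop where
  /-- the Satake parameters are nonzero -/
  ne_zero : ∀ p, a p ≠ 0 ∧ b p ≠ 0
  /-- `π_p` is unitary: complex conjugation induces `{a, b} → {1/a, 1/b}` -/
  unitary : ∀ p, ((starRingEnd ℂ) (a p) = (a p)⁻¹ ∧ (starRingEnd ℂ) (b p) = (b p)⁻¹) ∨
    ((starRingEnd ℂ) (a p) = (b p)⁻¹ ∧ (starRingEnd ℂ) (b p) = (a p)⁻¹)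
  /-- the lift of an exceptional form -/
  exceptional : lam < 1 / 4 → Lift a b (Real.sqrt (1 / 4 - lam)) β T Q

/-- the real number `y` lies in `(0, 1) ∪ (2, 3)` -/
def Gap (y : ℝ) : Prop := (0 < y ∧ y < 1) ∨ (2 < y ∧ y < 3)

open Pool.Agent.TH949.UL in
theorem toCusp {S : Finset Nat.Primes} {a b : Unram S → ℂ} {ν : ℝ} (hν : 0 ≤ ν) {β : Nat.Primes → Fin 24 → ℂ}
    {T : Finset (Nat.Primes × Fin 24)} {Q : ℝ} (h : Lift a b ν β T Q) :
    ∃ κ : Fin 24 → ℂ, (∏ j, (1 + ‖κ j‖)) ≤ 2 ^ 24 ∧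
      Pool.Agent.Y725.UG.CuspQ (n := 5) (m := 24) (N := 24) (fun p => Pool.Agent.Y725.SE.fourth (a p) (b p)) β T κ Q := by
  set μ : Fin 5 → ℂ := fun i => 2 * ν * (((i : ℕ) : ℂ) - 2) with hμ
  have hb := h.bound_real
  have hμre : ∀ i, (μ i).re = 2 * ν * (((i : ℕ) : ℝ) - 2) := by
    intro i
    rw [hμ]
    simp
  have h1 : ∀ i, |(μ i).re| < 1 / 2 := by
    intro i
    rw [hμre, abs_lt]
    fin_cases i <;> simp <;> constructor <;> linarith
  have hsub : ∀ i j, μ i - μ j = ((2 * ν * (((i : ℕ) : ℝ) - ((j : ℕ) : ℝ)) : ℝ) : ℂ) := by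
    intro i j
    rw [hμ]
    push_cast
    ring
  refine ⟨kp μ 0, ?_, ?_⟩
  · have h2 : ∀ j, 1 + ‖kp μ 0 j‖ ≤ 2 := by
      intro j
      have h3 : ‖kp μ 0 j‖ ≤ 1 := by
        unfold kp
        rw [hsub, Complex.norm_real, Real.norm_eq_abs, abs_le]
        have hi := (ep (0 : Fin 5) j).1.1.2
        have hj := (ep (0 : Fin 5) j).1.2.2
        have hi' : (((ep (0 : Fin 5) j).1.1 : ℕ) : ℝ) ≤ 4 := by exact_mod_cast (by omega : ((ep (0 : Fin 5) j).1.1 : ℕ) ≤ 4)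
        have hj' : (((ep (0 : Fin 5) j).1.2 : ℕ) : ℝ) ≤ 4 := by exact_mod_cast (by omega : ((ep (0 : Fin 5) j).1.2 : ℕ) ≤ 4)
        have hi0 : (0 : ℝ) ≤ (((ep (0 : Fin 5) j).1.1 : ℕ) : ℝ) := Nat.cast_nonneg _
        have hj0 : (0 : ℝ) ≤ (((ep (0 : Fin 5) j).1.2 : ℕ) : ℝ) := Nat.cast_nonneg _
        constructor <;> nlinarith
      linarith
    calc (∏ j, (1 + ‖kp μ 0 j‖)) ≤ ∏ _j : Fin (5 ^ 2 - 1), (2 : ℝ) :=
          Finset.prod_le_prod (fun j _ => by positivity) fun j _ => h2 j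
      _ = 2 ^ 24 := by simp
  · refine ⟨h.bound, h.ramified, h.removed, h.nonneg, h.one_le,
      conj_kp μ 0 ⟨Fin.revPerm, fun i => ?_⟩, re_kp h1 0, zero_kp (by norm_num) μ 0, ?_⟩
    · have hμr : ∀ i, μ i = ((2 * ν * (((i : ℕ) : ℝ) - 2) : ℝ) : ℂ) := by
        intro i
        rw [hμ]
        push_cast
        ring
      have hv : ((Fin.revPerm i : Fin 5) : ℕ) = 4 - (i : ℕ) := by
        fin_cases i <;> rfl
      have hv2 : (((Fin.revPerm i : Fin 5) : ℕ) : ℝ) = 4 - ((i : ℕ) : ℝ) := by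
        rw [hv, Nat.cast_sub (by omega)]
        norm_num
      rw [hμr, hμr, Complex.conj_ofReal, hv2, ← Complex.ofReal_neg]
      congr 1
      ring
    · obtain ⟨G, Ξ, ω, hG, hΞ, hω, hE, hgr, hΞe, hfe⟩ := h.continuation
      refine ⟨G, Ξ, ω, hG, hΞ, hω, hE, hgr, fun s hs => ?_, hfe⟩
      rw [hΞe s hs]
      have h2 := prod_all (0 : Fin 5) (fun x => Complex.Gammaℝ (s + (μ x.1 - μ x.2)))
      have h3 := prod_ep (0 : Fin 5) (fun x => Complex.Gammaℝ (s + (μ x.1 - μ x.2)))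
      rw [← h3, sub_self, add_zero] at h2
      have h4 : ∏ i : Fin 5, ∏ j : Fin 5, Complex.Gammaℝ (s + 2 * ν * (((i : ℕ) : ℂ) - ((j : ℕ) : ℂ))) =
          ∏ i : Fin 5, ∏ j : Fin 5, Complex.Gammaℝ (s + (μ i - μ j)) := by
        refine Finset.prod_congr rfl fun i _ => Finset.prod_congr rfl fun j _ => ?_
        have h6 : 2 * (ν : ℂ) * (((i : ℕ) : ℂ) - ((j : ℕ) : ℂ)) = μ i - μ j := by
          rw [hμ]
          ring
        rw [h6]
      have h5 : ∏ i : Fin 5, ∏ j : Fin 5, Complex.Gammaℝ (s + (μ i - μ j)) =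
          Complex.Gammaℝ s * ∏ j, Complex.Gammaℝ (s + kp μ 0 j) := h2
      rw [h4, h5]
      change s * G s * ((Q : ℂ) ^ s * (Complex.Gammaℝ s * ∏ j, Complex.Gammaℝ (s + kp μ 0 j))) =
        s * G s * ((Q : ℂ) ^ s * Complex.Gammaℝ s * ∏ j : Fin (5 ^ 2 - 1), Complex.Gammaℝ (s + kp μ 0 j))
      ring

/-- **The least prime with a non-integral squared Hecke eigenvalue of an exceptional form.** -/
theorem result {ε : ℝ} (hε : 0 < ε) :
    ∃ A : ℝ, 0 < A ∧ ∀ (S : Finset Nat.Primes) (a b : Unram S → ℂ) (lam : ℝ) (β : Nat.Primes → Fin 24 → ℂ)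
      (T : Finset (Nat.Primes × Fin 24)) (Q : ℝ), MaassNewform a b lam β T Q → lam < 1 / 4 →
      ∃ (p : Unram S) (k : ℕ), 1 ≤ k ∧
        ((p.1 : ℕ) : ℝ) ^ k ≤ A * (Q ^ 2 * ∏ x ∈ T, ((x.1 : ℕ) : ℝ)) ^ (1 + ε) ∧
        Gap (‖a p ^ k + b p ^ k‖ ^ 2) ∧ 0 < ‖a p + b p‖ ^ 2 ∧ ‖a p + b p‖ ^ 2 < 4 ∧
        ∀ m : ℤ, ‖a p + b p‖ ^ 2 ≠ m := by
  obtain ⟨A, hA0, hA⟩ := Pool.Agent.Y725.UG.rat_least 5 24 24 hε
  refine ⟨A * (2 ^ 24) ^ (1 + ε), by positivity, fun S a b lam β T Q h hlam => ?_⟩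
  obtain ⟨κ, hκ, hC⟩ := toCusp (Real.sqrt_nonneg _) (h.exceptional hlam)
  obtain ⟨p, k, hk, hle, hlt⟩ := hA S _ β T κ Q hC
  obtain ⟨ha, hb⟩ := h.ne_zero p
  have hU := h.unitary p
  have hUk : Pool.Agent.Y725.SE.Unit2 (a p ^ k) (b p ^ k) := by
    rcases hU with ⟨h1, h2⟩ | ⟨h1, h2⟩
    · exact Or.inl ⟨by rw [map_pow, h1, inv_pow], by rw [map_pow, h2, inv_pow]⟩
    · exact Or.inr ⟨by rw [map_pow, h1, inv_pow], by rw [map_pow, h2, inv_pow]⟩
  refine ⟨p, k, hk, ?_, ?_, ?_⟩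
  · refine hle.trans ?_
    have hQ := (h.exceptional hlam).one_le
    have hT : (0 : ℝ) ≤ ∏ x ∈ T, ((x.1 : ℕ) : ℝ) := Finset.prod_nonneg fun _ _ => Nat.cast_nonneg _
    have hQT : 0 ≤ Q ^ 2 * ∏ x ∈ T, ((x.1 : ℕ) : ℝ) := by positivity
    have e1 : A * (2 ^ 24) ^ (1 + ε) * (Q ^ 2 * ∏ x ∈ T, ((x.1 : ℕ) : ℝ)) ^ (1 + ε) =
        A * (2 ^ 24 * (Q ^ 2 * ∏ x ∈ T, ((x.1 : ℕ) : ℝ))) ^ (1 + ε) := by
      rw [Real.mul_rpow (by positivity) hQT, mul_assoc]
    rw [e1]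
    refine mul_le_mul_of_nonneg_left (Real.rpow_le_rpow ?_ ?_ (by linarith)) hA0.le
    · have : 0 ≤ ∏ j, (1 + ‖κ j‖) := Finset.prod_nonneg fun _ _ => by positivity
      positivity
    · calc Q ^ 2 * (∏ j, (1 + ‖κ j‖)) * ∏ x ∈ T, ((x.1 : ℕ) : ℝ) ≤
          Q ^ 2 * 2 ^ 24 * ∏ x ∈ T, ((x.1 : ℕ) : ℝ) := by gcongr
        _ = _ := by ring
  · refine Pool.Agent.Y725.SE.small_trace (pow_ne_zero k ha) (pow_ne_zero k hb) hUk ?_
    have h1 : ∑ i, Pool.Agent.Y725.SE.fourth (a p ^ k) (b p ^ k) i =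
        ∑ i, Pool.Agent.Y725.SE.fourth (a p) (b p) i ^ k := by
      refine Finset.sum_congr rfl fun i _ => ?_
      fin_cases i <;> simp [Pool.Agent.Y725.SE.fourth, div_pow] <;> ring
    rw [h1]
    exact hlt
  · have h4 : ¬ (4 ≤ ‖a p + b p‖ ^ 2 ∨ ∃ m : ℤ, ‖a p + b p‖ ^ 2 = m) := fun h5 =>
      absurd hlt (not_lt.2 (Pool.Agent.Y725.SE.big_trace ha hb hU h5 k))
    push Not at h4
    refine ⟨?_, h4.1, h4.2⟩
    have h6 : 0 ≤ ‖a p + b p‖ ^ 2 := by positivity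
    rcases h6.lt_or_eq with h7 | h7
    · exact h7
    · exact absurd (by rw [Int.cast_zero]; exact h7.symm) (h4.2 0)

end Pool.Agent.Results.MP_a812b2_nt.LeastNonintegralSquare
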