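import Mathlib
import Pool.Agent.Y754.NF.Key
import Pool.Agent.Y754.NF.Alg

/-!
# Selberg's eigenvalue conjecture for Maass forms whose squared Hecke eigenvalues are algebraic integers

Let `K` be a number field of any degree which does not contain `√5`, and let `f_σ`, `σ : K → ℂ`, be conjugate Maass
newforms of weight zero, of any level and with any nebentypus, with Laplace eigenvalues `lam σ > 0`: we suppose that for
the primes `p` there are algebraic integers `y_p` in `K` with `|λ_σ(p)|² = σ(y_p)` for all `σ`, where `λ_σ(p)` is the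
Hecke eigenvalue of `f_σ`. Let `S` be a finite set of primes which contains the divisors of the levels.

* (1) If this holds for all primes outside a set with at most `C X^c` elements up to `X`, for some `c < 1/2`, then
  `lam σ ≥ 1/4` for all `σ`: the conjecture is true for all `f_σ`.
* (2) If it holds for all primes outside a set with at most `C X^c` elements up to `X`, then
  `lam σ ≥ 1/4 - c²/64` for all `σ`.
* (3) For every family `f_σ` of newforms with cuspidal lifts `A⁴(π_σ)` and every `c < 1/2`, for all large `X` there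
  are at least `X^c` primes `p ≤ X` without such a `y_p`.

Known before: all `λ(p)` rational integers (Sarnak 2002), quadratic integers (Brumley 2003), `|λ(p)|²` rational
integers for most primes (`IntegralSquares`, of this run).

The proof: let `Π_σ = A⁴(π_σ) = Sym⁴(π_σ) ⊗ ω⁻²` on `GL_5` (Kim), which is cuspidal (Kim, Shahidi). The traces of the
powers of its Satake parameters at `p` are `t_σ = w_σ² + w_σ - 1`, where `w_σ = σ(w)` for an algebraic integer
`w` in `K`. As `4 (w² + w - 1) = (2 w + 1)² - 5` is not zero, the norm of `w² + w - 1` is a nonzero integer, and so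
`∑_σ |t_σ|² ≥ [K : ℚ]`. On the other hand we show that for any `d` cuspidal representations the sum of the squared
traces is less than `d` at many prime powers: otherwise the function `∏_σ L(s, Π_σ × Π_σ~) / ζ(s)` is too regular. Here
the explicit formula with a Gaussian weight of `Pool.Agent.TH949.TX` is used, and that this function has singularities
close to the line `Re s = 1/2` (by the functional equation), or in (2) a trivial zero at `s = 8 √(1/4 - lam σ)`.
-/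

set_option autoImplicit false

namespace Pool.Agent.Results.MP_a812b2_nt.NumberFieldSquares

open Filter NumberField

/-- the primes outside the finite set `S` -/
abbrev Unram (S : Finset Nat.Primes) := {p : Nat.Primes // p ∉ S}

/-- the Satake parameters of the lift `Π = A⁴(π) = Sym⁴(π) ⊗ ω⁻²` if `π` has the Satake parameters `a, b` -/
noncomputable def fourth (a b : ℂ) : Fin 5 → ℂ := ![(a / b) ^ 2, a / b, 1, b / a, (b / a) ^ 2]

/-- the trace `∑_i γ_i^k` of the `k`-th power of the Satake parameters of `Π` -/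
noncomputable def tr (a b : ℂ) (k : ℕ) : ℂ := ∑ i, fourth a b i ^ k

/-- `log L^S(s, Π × Π~) = ∑_{p ∉ S} ∑_{k ≥ 1} |tr Π_p^k|² / (k p^{ks})` -/
noncomputable def logL {S : Finset Nat.Primes} (a b : Unram S → ℂ) (s : ℂ) : ℂ :=
  ∑' x : Unram S × ℕ, ((‖tr (a x.1) (b x.1) (x.2 + 1)‖ ^ 2 / ((x.2 : ℝ) + 1) : ℝ) : ℂ) *
    (((x.1.1 : ℕ) : ℂ) ^ (-s)) ^ (x.2 + 1)

/-- The properties of the Rankin-Selberg `L`-function `L(s, Π × Π~)` of a cuspidal `Π = A⁴(π)` on `GL_5` over `ℚ`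
which are used: `β p` are the reciprocal roots of the Euler factors at the primes of `S`, and `0, κ` are the
parameters of the 25 Gamma factors. -/
structure CuspidalLift {S : Finset Nat.Primes} (a b : Unram S → ℂ) (β : Nat.Primes → Fin (5 ^ 2) → ℂ) (κ : Fin (5 ^ 2 - 1) → ℂ) :
    Prop where
  /-- `Π × Π~` is Hermitian at the real place -/
  conj : Multiset.map (fun j => (starRingEnd ℂ) (κ j)) Finset.univ.val = Multiset.map κ Finset.univ.val
  /-- absolute convergence for `Re s > 1` -/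
  summable : ∀ σ : ℝ, 1 < σ → Summable fun x : Unram S × ℕ =>
    ‖tr (a x.1) (b x.1) (x.2 + 1)‖ ^ 2 / ((x.2 : ℝ) + 1) * (((x.1.1 : ℕ) : ℝ) ^ (-σ)) ^ (x.2 + 1)
  /-- `L(s, Π × Π~) = G(s) / (s - 1)` with `G` entire of polynomial growth in vertical strips, and
  `Ξ(s) = s (s - 1) Q^s Γ_ℝ(s) ∏_j Γ_ℝ(s + κ_j) L(s, Π × Π~)` is entire and satisfies the functional equation -/
  continuation : ∃ (G Ξ : ℂ → ℂ) (Q : ℝ) (ω : ℂ), Differentiable ℂ G ∧ Differentiable ℂ Ξ ∧ 0 < Q ∧ ω ≠ 0 ∧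
    (∀ s : ℂ, 1 < s.re → G s * ∏ p ∈ S, ∏ i, (1 - β p i * ((p : ℕ) : ℂ) ^ (-s)) =
      (s - 1) * Complex.exp (logL a b s)) ∧
    (∀ u v : ℝ, ∃ C A : ℝ, ∀ s : ℂ, u ≤ s.re → s.re ≤ v → ‖G s‖ ≤ C * (1 + |s.im|) ^ A) ∧
    (∀ s : ℂ, 1 < s.re → Ξ s = s * G s * ((Q : ℂ) ^ s * Complex.Gammaℝ s * ∏ j, Complex.Gammaℝ (s + κ j))) ∧
    ∀ s : ℂ, Ξ (1 - s) = ω * Ξ s

/-- What is used of Maass newforms `f_σ` of weight zero, indexed by the embeddings `σ` of `K`, with Laplace
eigenvalues `lam σ` and Satake parameters `a σ p`, `b σ p` at the primes outside `S`. -/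
structure Newforms {K : Type} [Field K] [NumberField K] {S : Finset Nat.Primes} (a b : (K →+* ℂ) → Unram S → ℂ)
    (lam : (K →+* ℂ) → ℝ) : Prop where
  /-- the Satake parameters are nonzero -/
  ne_zero : ∀ σ p, a σ p ≠ 0 ∧ b σ p ≠ 0
  /-- the components are unitary: complex conjugation induces `{a, b} → {1/a, 1/b}` -/
  unitary : ∀ σ p, ((starRingEnd ℂ) (a σ p) = (a σ p)⁻¹ ∧ (starRingEnd ℂ) (b σ p) = (b σ p)⁻¹) ∨
    ((starRingEnd ℂ) (a σ p) = (b σ p)⁻¹ ∧ (starRingEnd ℂ) (b σ p) = (a σ p)⁻¹)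
  /-- if one of the forms has `lam < 1/4`, then all lifts `A⁴(π_σ)` are cuspidal, and one of the Gamma factors is
  `Γ_ℝ(s - 8 ν)` for every form with `lam = 1/4 - ν² < 1/4` -/
  exceptional : (∃ σ, lam σ < 1 / 4) → ∀ σ, ∃ (β : Nat.Primes → Fin (5 ^ 2) → ℂ) (κ : Fin (5 ^ 2 - 1) → ℂ),
    CuspidalLift (a σ) (b σ) β κ ∧ (lam σ < 1 / 4 → ∃ j, κ j = -((8 * Real.sqrt (1 / 4 - lam σ) : ℝ) : ℂ))

/-- there is an algebraic integer `y` in `K` with `|λ_σ(p)|² = σ(y)` for all embeddings `σ` of `K` -/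
def Integral {K : Type} [Field K] [NumberField K] {S : Finset Nat.Primes} (a b : (K →+* ℂ) → Unram S → ℂ)
    (p : Unram S) : Prop :=
  ∃ y : 𝓞 K, ∀ σ : K →+* ℂ, ((‖a σ p + b σ p‖ ^ 2 : ℝ) : ℂ) = σ (y : K)

/-- the number of the primes `p ≤ X` outside `S` with the property `E` -/
noncomputable def count {S : Finset Nat.Primes} (E : Unram S → Prop) (X : ℝ) : ℕ :=
  {p : Unram S | ((p.1 : ℕ) : ℝ) ≤ X ∧ E p}.ncard

theorem toRep {S : Finset Nat.Primes} {a b : Unram S → ℂ} {β : Nat.Primes → Fin (5 ^ 2) → ℂ} {κ : Fin (5 ^ 2 - 1) → ℂ}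
    (h0 : ∀ p, a p ≠ 0 ∧ b p ≠ 0)
    (hU : ∀ p, ((starRingEnd ℂ) (a p) = (a p)⁻¹ ∧ (starRingEnd ℂ) (b p) = (b p)⁻¹) ∨
      ((starRingEnd ℂ) (a p) = (b p)⁻¹ ∧ (starRingEnd ℂ) (b p) = (a p)⁻¹))
    (h : CuspidalLift a b β κ) :
    Pool.Agent.TH949.RES.CuspidalRep (n := 5) S (fun p => Pool.Agent.Y725.SE.fourth (a p) (b p)) β κ where
  ne_zero := by
    intro p i
    obtain ⟨ha, hb⟩ := h0 p
    fin_cases i <;> simp [Pool.Agent.Y725.SE.fourth, ha, hb]
  unitary := by
    intro p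
    obtain ⟨ha, hb⟩ := h0 p
    rcases hU p with ⟨h1, h2⟩ | ⟨h1, h2⟩
    · refine ⟨Equiv.refl _, fun i => ?_⟩
      fin_cases i <;> simp [Pool.Agent.Y725.SE.fourth, h1, h2] <;> field_simp
    · refine ⟨Fin.revPerm, fun i => ?_⟩
      fin_cases i <;> simp [Pool.Agent.Y725.SE.fourth, h1, h2, Fin.rev, Fin.revPerm] <;> field_simp
  conj := h.conj
  summable := h.summable
  continuation := h.continuation

variable {K : Type} [Field K] [NumberField K] {S : Finset Nat.Primes} {a b : (K →+* ℂ) → Unram S → ℂ}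

/-- many primes are not integral -/
theorem many (h5 : ¬ IsSquare (5 : K)) (h0 : ∀ σ p, a σ p ≠ 0 ∧ b σ p ≠ 0)
    (hU : ∀ σ p, ((starRingEnd ℂ) (a σ p) = (a σ p)⁻¹ ∧ (starRingEnd ℂ) (b σ p) = (b σ p)⁻¹) ∨
      ((starRingEnd ℂ) (a σ p) = (b σ p)⁻¹ ∧ (starRingEnd ℂ) (b σ p) = (a σ p)⁻¹))
    {β : (K →+* ℂ) → Nat.Primes → Fin (5 ^ 2) → ℂ} {κ : (K →+* ℂ) → Fin (5 ^ 2 - 1) → ℂ}
    (h : ∀ σ, CuspidalLift (a σ) (b σ) (β σ) (κ σ)) {c : ℝ}
    (hc : c < 1 / 2 ∨ ∃ (σ : K →+* ℂ) (j : Fin (5 ^ 2 - 1)) (x : ℝ), κ σ j = -(x : ℂ) ∧ c < x) :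
    ∀ᶠ X : ℝ in atTop, X ^ c ≤ (count (fun p : Unram S => ¬ Integral a b p) X : ℝ) := by
  classical
  obtain ⟨r, hr⟩ : ∃ r, r = Fintype.card (K →+* ℂ) := ⟨_, rfl⟩
  have hr1 : 1 ≤ r := by
    rw [hr, Nat.succ_le_iff, Fintype.card_pos_iff]
    infer_instance
  let e : (K →+* ℂ) ≃ Fin r := Fintype.equivFinOfCardEq hr.symm
  refine Pool.Agent.Y754.NF.tuple_count (n := 5) (by norm_num) hr1
    (α := fun i p => Pool.Agent.Y725.SE.fourth (a (e.symm i) p) (b (e.symm i) p))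
    (β := fun i => β (e.symm i)) (κ := fun i => κ (e.symm i))
    (fun i => toRep (h0 (e.symm i)) (hU (e.symm i)) (h (e.symm i))) ?_ ?_
  · rcases hc with hc | ⟨σ, j, x, hx, hcx⟩
    · exact Or.inl hc
    · exact Or.inr (Or.inr (Or.inr ⟨e σ, j, x, by simpa using hx, hcx⟩))
  · rintro p k hk ⟨y, hy⟩
    have h1 := Pool.Agent.Y754.NF.big_sum h5 (a := fun σ => a σ p) (b := fun σ => b σ p) (fun σ => h0 σ p)
      (fun σ => hU σ p) hy (k + 1)
    have h2 : ∑ i : Fin r, ‖∑ j, Pool.Agent.Y725.SE.fourth (a (e.symm i) p) (b (e.symm i) p) j ^ (k + 1)‖ ^ 2 =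
        ∑ σ : K →+* ℂ, ‖∑ j, Pool.Agent.Y725.SE.fourth (a σ p) (b σ p) j ^ (k + 1)‖ ^ 2 :=
      Equiv.sum_comp e.symm (fun σ => ‖∑ j, Pool.Agent.Y725.SE.fourth (a σ p) (b σ p) j ^ (k + 1)‖ ^ 2)
    rw [h2, hr] at hk
    exact absurd hk (not_lt.2 h1)

/-- a power of `X` is not bounded by a smaller one -/
theorem absurd_pow {f : ℝ → ℝ} {c c' C : ℝ} (hcc : c < c') (h1 : ∀ᶠ X : ℝ in atTop, X ^ c' ≤ f X)
    (h2 : ∀ X : ℝ, 1 ≤ X → f X ≤ C * X ^ c) : False := by
  have h3 : Tendsto (fun X : ℝ => X ^ (c' - c)) atTop atTop := tendsto_rpow_atTop (by linarith)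
  obtain ⟨X, k1, k2, k3⟩ := (h1.and ((h3.eventually_gt_atTop C).and (eventually_ge_atTop 1))).exists
  have hX : 0 < X := by linarith
  have k4 := k1.trans (h2 X k3)
  have k5 : X ^ c' = X ^ (c' - c) * X ^ c := by
    rw [← Real.rpow_add hX]
    congr 1
    ring
  rw [k5] at k4
  have k6 : 0 < X ^ c := by positivity
  have := le_of_mul_le_mul_right k4 k6
  linarith

/-- **Selberg's eigenvalue conjecture for conjugate Maass forms whose squared Hecke eigenvalues are algebraic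
integers** of a number field without `√5`.

1. If `|λ_σ(p)|² = σ(y_p)` with algebraic integers `y_p` in `K` for all but at most `C X^c` primes `p ≤ X`,
`c < 1/2`, then `lam σ ≥ 1/4` for all `σ`.
2. If it holds for all but at most `C X^c` primes `p ≤ X`, then `lam σ ≥ 1/4 - c²/64` for all `σ`.
3. If all `A⁴(π_σ)` are cuspidal, then for every `c < 1/2` and all large `X` there are at least `X^c` primes `p ≤ X`
for which there is no such `y_p`. -/
theorem result (h5 : ¬ IsSquare (5 : K)) {lam : (K →+* ℂ) → ℝ} (h : Newforms a b lam) :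
    (∀ c C : ℝ, c < 1 / 2 → (∀ X : ℝ, 1 ≤ X → (count (fun p : Unram S => ¬ Integral a b p) X : ℝ) ≤ C * X ^ c) →
      ∀ σ, 1 / 4 ≤ lam σ) ∧
    (∀ c C : ℝ, (∀ X : ℝ, 1 ≤ X → (count (fun p : Unram S => ¬ Integral a b p) X : ℝ) ≤ C * X ^ c) →
      ∀ σ, 1 / 4 - c ^ 2 / 64 ≤ lam σ) ∧
    ((∀ σ, ∃ (β : Nat.Primes → Fin (5 ^ 2) → ℂ) (κ : Fin (5 ^ 2 - 1) → ℂ), CuspidalLift (a σ) (b σ) β κ) →
      ∀ c : ℝ, c < 1 / 2 → ∃ X₀ : ℝ, ∀ X : ℝ, X₀ ≤ X →
        X ^ c ≤ (count (fun p : Unram S => ¬ Integral a b p) X : ℝ)) := by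
  refine ⟨?_, ?_, ?_⟩
  · intro c C hc hcount σ
    by_contra hl
    push Not at hl
    choose β κ hL hκ using h.exceptional ⟨σ, hl⟩
    exact absurd_pow (show c < (c + 1 / 2) / 2 by linarith)
      (many h5 h.ne_zero h.unitary hL (Or.inl (by linarith))) hcount
  · intro c C hcount σ
    by_contra hl
    push Not at hl
    have hl4 : lam σ < 1 / 4 := by nlinarith [sq_nonneg c]
    choose β κ hL hκ using h.exceptional ⟨σ, hl4⟩
    obtain ⟨j, hj⟩ := hκ σ hl4
    have h2 : c < 8 * Real.sqrt (1 / 4 - lam σ) := by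
      have h3 : c / 8 < Real.sqrt (1 / 4 - lam σ) := by
        refine lt_of_le_of_lt (le_abs_self _) ?_
        refine Real.lt_sqrt_of_sq_lt ?_
        rw [sq_abs]
        linarith
      linarith
    exact absurd_pow (show c < (c + 8 * Real.sqrt (1 / 4 - lam σ)) / 2 by linarith)
      (many h5 h.ne_zero h.unitary hL (Or.inr ⟨σ, j, _, hj, by linarith⟩)) hcount
  · intro hL c hc
    choose β κ hL using hL
    exact eventually_atTop.1 (many h5 h.ne_zero h.unitary hL (Or.inl hc))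

end Pool.Agent.Results.MP_a812b2_nt.NumberFieldSquares
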